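import Pool.Agent.H68.Ch2

namespace Pool.Agent.Results.MP_811a2c_al.Exists

open Pool.Agent.H68.Ch

theorem result : ∃ (M T : Type) (_ : Monoid M) (_ : Monoid T),
    ¬ (LeftCoherent (SD M) ∧ RightCoherent (SD M)) ∧
    (∃ f : SD M →ₙ* T, Function.Injective f) ∧
    (LeftCoherent T ∨ RightCoherent T) :=
  ⟨RZ, SD RZ, inferInstance, inferInstance, fun h => not_leftCoherent h.1,
    ⟨MulHom.id _, Function.injective_id⟩, Or.inr rightCoherent⟩

end Pool.Agent.Results.MP_811a2c_al.Exists
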